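import Pool.Agent.TH508.ON.Loop

set_option autoImplicit false

/-!
Monotonicity in `n` of conditional exponential decay in the loop O(n) model on the hexagonal
lattice: exponential decay of the loops surrounding a vertex, uniformly under conditioning on a
family of other loops, is inherited by all larger loop weights.
-/

namespace Pool.Agent.Results.MP_888d55_pr.ConditionalDecay

open H978R2.Hex (Adj)

/-- A loop of the lattice, as a set of edges: a closed walk `f` through `k ≥ 3` distinct vertices,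
written as a `k`-periodic function. -/
def IsLoop (c : Finset (Sym2 (ℤ × ℤ))) : Prop :=
  ∃ (k : ℕ) (f : ℤ → ℤ × ℤ), 3 ≤ k ∧ (∀ i j, f i = f j ↔ (k : ℤ) ∣ i - j) ∧
    (∀ i, Adj (f i) (f (i + 1))) ∧ ∀ e, e ∈ c ↔ ∃ i, e = s(f i, f (i + 1))

/-- `v` is a vertex of `c` -/
def On (v : ℤ × ℤ) (c : Finset (Sym2 (ℤ × ℤ))) : Prop := ∃ e ∈ c, v ∈ e

/-- The loop configurations on the finite set `E` of edges: sets of pairwise vertex-disjoint loops
with all their edges in `E`. -/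
def Conf (E : Finset (Sym2 (ℤ × ℤ))) : Set (Finset (Finset (Sym2 (ℤ × ℤ)))) :=
  {L | (∀ c ∈ L, IsLoop c ∧ c ⊆ E) ∧ ∀ c ∈ L, ∀ d ∈ L, c ≠ d → ∀ v, On v c → ¬ On v d}

/-- The weight `n ^ (number of loops) * x ^ (number of edges)`. -/
noncomputable def weight (n x : ℝ) (L : Finset (Finset (Sym2 (ℤ × ℤ)))) : ℝ :=
  n ^ L.card * x ^ (∑ c ∈ L, c.card)

/-- The partition function of the loop O(n) model on `E`. -/
noncomputable def Z (n x : ℝ) (E : Finset (Sym2 (ℤ × ℤ))) : ℝ := ∑ᶠ L ∈ Conf E, weight n x L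

/-- The probability, in the loop O(n) model on `E`, that some loop belongs to the class `A`. -/
noncomputable def Pr (n x : ℝ) (E : Finset (Sym2 (ℤ × ℤ)))
    (A : Set (Finset (Sym2 (ℤ × ℤ)))) : ℝ :=
  (∑ᶠ L ∈ {L | L ∈ Conf E ∧ ∃ c ∈ L, c ∈ A}, weight n x L) / Z n x E

open Classical in
/-- The edges of `E` which do not touch a loop of `B`. (The loop O(n) model on this set is the
conditional law of the other loops of the loop O(n) model on `E`, given that the loops of `B` are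
present.) -/
noncomputable def rest (E : Finset (Sym2 (ℤ × ℤ))) (B : Finset (Finset (Sym2 (ℤ × ℤ)))) :
    Finset (Sym2 (ℤ × ℤ)) :=
  E.filter fun e => ∀ c ∈ B, ∀ v ∈ e, ¬ On v c

/-- The loop `c` surrounds the vertex `v`: `v` is not on `c`, and the two vertical half-lines which
start at the edge from `v` to `v + (1, 0)` cross `c` an odd number of times. -/
def Surrounds (c : Finset (Sym2 (ℤ × ℤ))) (v : ℤ × ℤ) : Prop :=
  ¬ On v c ∧ Odd {j : ℤ | v.2 < j ∧ s((v.1, j), (v.1 + 1, j)) ∈ c}.ncard ∧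
    Odd {j : ℤ | j < v.2 ∧ s((v.1, j), (v.1 + 1, j)) ∈ c}.ncard

/-- The loops of length at least `k` which surround `v`. -/
def Long (v : ℤ × ℤ) (k : ℕ) : Set (Finset (Sym2 (ℤ × ℤ))) := {c | Surrounds c v ∧ k ≤ c.card}

/-- Conditional exponential decay for the class `D` of finite sets of edges: for every `E` in `D`,
conditionally on any family `B` of disjoint loops of `E`, the probability that one of the other
loops surrounds `v` and has length at least `k` is at most `exp (-c k)`. -/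
def Decay (n x : ℝ) (v : ℤ × ℤ) (D : Set (Finset (Sym2 (ℤ × ℤ)))) : Prop :=
  ∃ c : ℝ, 0 < c ∧ ∀ E ∈ D, ∀ B ∈ Conf E, ∀ k : ℕ, 1 ≤ k →
    Pr n x (rest E B) (Long v k) ≤ Real.exp (-c * k)

/-! ### Configurations -/

theorem isLoop_iff (c : Finset (Sym2 (ℤ × ℤ))) : IsLoop c ↔ TH508.ON.IsLoop c := by
  constructor
  · rintro ⟨k, f, h1, h2, h3, h4⟩
    exact ⟨k, f, ⟨h1, h2, h3⟩, h4⟩
  · rintro ⟨k, f, ⟨h1, h2, h3⟩, h4⟩
    exact ⟨k, f, h1, h2, h3, h4⟩

theorem IsLoop.nonempty {c : Finset (Sym2 (ℤ × ℤ))} (h : IsLoop c) : ∃ v, On v c := by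
  obtain ⟨k, f, -, -, -, h4⟩ := h
  exact ⟨f 0, s(f 0, f (0 + 1)), (h4 _).2 ⟨0, rfl⟩, Sym2.mem_mk_left _ _⟩

theorem finite_conf (E : Finset (Sym2 (ℤ × ℤ))) : (Conf E).Finite := by
  classical
  refine (E.powerset.powerset.finite_toSet).subset fun L hL => ?_
  rw [Finset.mem_coe, Finset.mem_powerset]
  intro c hc
  exact Finset.mem_powerset.2 (hL.1 c hc).2

noncomputable def CF (E : Finset (Sym2 (ℤ × ℤ))) : Finset (Finset (Finset (Sym2 (ℤ × ℤ)))) :=
  (finite_conf E).toFinset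

theorem mem_CF {E : Finset (Sym2 (ℤ × ℤ))} {L : Finset (Finset (Sym2 (ℤ × ℤ)))} :
    L ∈ CF E ↔ L ∈ Conf E := Set.Finite.mem_toFinset _

theorem empty_mem (E : Finset (Sym2 (ℤ × ℤ))) : ∅ ∈ Conf E :=
  ⟨fun c hc => absurd hc (Finset.notMem_empty c), fun c hc => absurd hc (Finset.notMem_empty c)⟩

theorem sum_conf (E : Finset (Sym2 (ℤ × ℤ))) (g : Finset (Finset (Sym2 (ℤ × ℤ))) → ℝ) :
    ∑ᶠ L ∈ Conf E, g L = ∑ L ∈ CF E, g L :=
  finsum_mem_eq_finite_toFinset_sum g (finite_conf E)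

theorem weight_eq (n x : ℝ) (L : Finset (Finset (Sym2 (ℤ × ℤ)))) :
    weight n x L = ∏ c ∈ L, n * x ^ c.card := by
  unfold weight
  rw [Finset.prod_mul_distrib, Finset.prod_const, Finset.prod_pow_eq_pow_sum]

theorem weight_nonneg {n x : ℝ} (hn : 0 ≤ n) (hx : 0 < x) (L : Finset (Finset (Sym2 (ℤ × ℤ)))) :
    0 ≤ weight n x L := by
  unfold weight
  positivity

theorem weight_empty (n x : ℝ) : weight n x ∅ = 1 := by simp [weight]

theorem Z_eq (n x : ℝ) (E : Finset (Sym2 (ℤ × ℤ))) : Z n x E = ∑ L ∈ CF E, weight n x L :=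
  sum_conf E _

theorem Z_pos {n x : ℝ} (hn : 0 ≤ n) (hx : 0 < x) (E : Finset (Sym2 (ℤ × ℤ))) : 0 < Z n x E := by
  rw [Z_eq]
  refine Finset.sum_pos' (fun L _ => weight_nonneg hn hx L) ⟨∅, mem_CF.2 (empty_mem E), ?_⟩
  rw [weight_empty]
  exact one_pos

/-- numerator of `Pr` -/
noncomputable def Nu (n x : ℝ) (E : Finset (Sym2 (ℤ × ℤ))) (A : Set (Finset (Sym2 (ℤ × ℤ)))) : ℝ :=
  open Classical in ∑ L ∈ CF E, if ∃ c ∈ L, c ∈ A then weight n x L else 0

theorem Pr_eq (n x : ℝ) (E : Finset (Sym2 (ℤ × ℤ))) (A : Set (Finset (Sym2 (ℤ × ℤ)))) :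
    Pr n x E A = Nu n x E A / Z n x E := by
  classical
  unfold Pr Nu
  congr 1
  have hfin : {L | L ∈ Conf E ∧ ∃ c ∈ L, c ∈ A}.Finite :=
    (finite_conf E).subset fun L hL => hL.1
  rw [finsum_mem_eq_finite_toFinset_sum _ hfin, ← Finset.sum_filter]
  refine Finset.sum_congr ?_ fun _ _ => rfl
  ext L
  rw [Set.Finite.mem_toFinset, Finset.mem_filter, mem_CF]
  rfl

theorem mem_rest {E : Finset (Sym2 (ℤ × ℤ))} {B : Finset (Finset (Sym2 (ℤ × ℤ)))}
    {e : Sym2 (ℤ × ℤ)} : e ∈ rest E B ↔ e ∈ E ∧ ∀ c ∈ B, ∀ v ∈ e, ¬ On v c := by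
  classical
  unfold rest
  rw [Finset.mem_filter]

theorem rest_rest (E : Finset (Sym2 (ℤ × ℤ))) (B C : Finset (Finset (Sym2 (ℤ × ℤ)))) :
    open Classical in rest (rest E B) C = rest E (B ∪ C) := by
  classical
  ext e
  simp only [mem_rest, Finset.mem_union]
  constructor
  · rintro ⟨⟨h1, h2⟩, h3⟩
    refine ⟨h1, fun c hc => ?_⟩
    rcases hc with hc | hc
    · exact h2 c hc
    · exact h3 c hc
  · rintro ⟨h1, h2⟩
    exact ⟨⟨h1, fun c hc => h2 c (Or.inl hc)⟩, fun c hc => h2 c (Or.inr hc)⟩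

open Classical in
theorem conf_sdiff {E : Finset (Sym2 (ℤ × ℤ))} {L R : Finset (Finset (Sym2 (ℤ × ℤ)))}
    (hL : L ∈ Conf E) : L \ R ∈ Conf E :=
  ⟨fun c hc => hL.1 c (Finset.mem_sdiff.1 hc).1,
    fun c hc d hd => hL.2 c (Finset.mem_sdiff.1 hc).1 d (Finset.mem_sdiff.1 hd).1⟩

open Classical in
theorem conf_rest {E : Finset (Sym2 (ℤ × ℤ))} {L R : Finset (Finset (Sym2 (ℤ × ℤ)))}
    (hL : L ∈ Conf E) (hR : R ⊆ L) : R ∈ Conf (rest E (L \ R)) := by
  refine ⟨fun c hc => ⟨(hL.1 c (hR hc)).1, fun e he => ?_⟩,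
    fun c hc d hd => hL.2 c (hR hc) d (hR hd)⟩
  rw [mem_rest]
  refine ⟨(hL.1 c (hR hc)).2 he, fun d hd v hv => ?_⟩
  rw [Finset.mem_sdiff] at hd
  exact hL.2 c (hR hc) d hd.1 (fun h => hd.2 (h ▸ hc)) v ⟨e, he, hv⟩

open Classical in
theorem conf_union {E : Finset (Sym2 (ℤ × ℤ))} {B R : Finset (Finset (Sym2 (ℤ × ℤ)))}
    (hB : B ∈ Conf E) (hR : R ∈ Conf (rest E B)) : B ∪ R ∈ Conf E := by
  have hx : ∀ c ∈ R, ∀ d ∈ B, ∀ v, On v c → ¬ On v d := by
    rintro c hc d hd v ⟨e, he, hv⟩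
    exact (mem_rest.1 ((hR.1 c hc).2 he)).2 d hd v hv
  refine ⟨fun c hc => ?_, fun c hc d hd hne v hv hv' => ?_⟩
  · rcases Finset.mem_union.1 hc with hc | hc
    · exact hB.1 c hc
    · exact ⟨(hR.1 c hc).1, fun e he => (mem_rest.1 ((hR.1 c hc).2 he)).1⟩
  · rcases Finset.mem_union.1 hc with hc | hc <;> rcases Finset.mem_union.1 hd with hd | hd
    · exact hB.2 c hc d hd hne v hv hv'
    · exact hx d hd c hc v hv' hv
    · exact hx c hc d hd v hv hv'
    · exact hR.2 c hc d hd hne v hv hv'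

theorem disj {E : Finset (Sym2 (ℤ × ℤ))} {B R : Finset (Finset (Sym2 (ℤ × ℤ)))}
    (hR : R ∈ Conf (rest E B)) : Disjoint B R := by
  rw [Finset.disjoint_left]
  intro c hB hc
  obtain ⟨v, e, he, hv⟩ := (hR.1 c hc).1.nonempty
  exact (mem_rest.1 ((hR.1 c hc).2 he)).2 c hB v hv ⟨e, he, hv⟩

open Classical in
/-- colouring: `(L, R ⊆ L)` against `(B, R)` with `R` a configuration which avoids `B` -/
theorem colour (E : Finset (Sym2 (ℤ × ℤ)))
    (F : Finset (Finset (Sym2 (ℤ × ℤ))) → Finset (Finset (Sym2 (ℤ × ℤ))) → ℝ) :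
    ∑ L ∈ CF E, ∑ R ∈ L.powerset, F (L \ R) R = ∑ B ∈ CF E, ∑ R ∈ CF (rest E B), F B R := by
  rw [Finset.sum_sigma', Finset.sum_sigma']
  refine Finset.sum_nbij' (fun p => ⟨p.1 \ p.2, p.2⟩) (fun p => ⟨p.1 ∪ p.2, p.2⟩) ?_ ?_ ?_ ?_ ?_
  · rintro ⟨L, R⟩ h
    rw [Finset.mem_sigma, mem_CF, Finset.mem_powerset] at h
    rw [Finset.mem_sigma, mem_CF, mem_CF]
    exact ⟨conf_sdiff h.1, conf_rest h.1 h.2⟩
  · rintro ⟨B, R⟩ h
    rw [Finset.mem_sigma, mem_CF, mem_CF] at h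
    rw [Finset.mem_sigma, mem_CF, Finset.mem_powerset]
    exact ⟨conf_union h.1 h.2, Finset.subset_union_right⟩
  · rintro ⟨L, R⟩ h
    rw [Finset.mem_sigma, mem_CF, Finset.mem_powerset] at h
    simp only [Finset.sdiff_union_of_subset h.2]
  · rintro ⟨B, R⟩ h
    rw [Finset.mem_sigma, mem_CF, mem_CF] at h
    have h1 : (B ∪ R) \ R = B := by
      rw [Finset.union_sdiff_right]
      exact Finset.sdiff_eq_self_of_disjoint (disj h.2)
    simp only [h1]
  · rintro ⟨L, R⟩ _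
    rfl

/-- product weight -/
noncomputable def gw (z : Finset (Sym2 (ℤ × ℤ)) → ℝ) (L : Finset (Finset (Sym2 (ℤ × ℤ)))) : ℝ :=
  ∏ c ∈ L, z c

/-- weight of the configurations with a loop in `A` -/
noncomputable def gNu (z : Finset (Sym2 (ℤ × ℤ)) → ℝ) (E : Finset (Sym2 (ℤ × ℤ)))
    (A : Set (Finset (Sym2 (ℤ × ℤ)))) : ℝ :=
  open Classical in ∑ L ∈ CF E, if ∃ c ∈ L, c ∈ A then gw z L else 0

theorem gw_nonneg {z : Finset (Sym2 (ℤ × ℤ)) → ℝ} (hz : ∀ c, 0 ≤ z c)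
    (L : Finset (Finset (Sym2 (ℤ × ℤ)))) : 0 ≤ gw z L := Finset.prod_nonneg fun c _ => hz c

theorem weight_gw (n x : ℝ) : weight n x = gw (fun c => n * x ^ c.card) :=
  funext fun L => weight_eq n x L

theorem Nu_gw (n x : ℝ) : Nu n x = gNu (fun c => n * x ^ c.card) := by
  unfold Nu gNu
  rw [weight_gw]

open Classical in
theorem gw_add (z z' : Finset (Sym2 (ℤ × ℤ)) → ℝ) (L : Finset (Finset (Sym2 (ℤ × ℤ)))) :
    gw z' L = ∑ R ∈ L.powerset, gw (fun c => z' c - z c) (L \ R) * gw z R := by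
  have h := Finset.prod_add z (fun c => z' c - z c) L
  have h1 : ∏ c ∈ L, z' c = ∏ c ∈ L, (z c + (z' c - z c)) :=
    Finset.prod_congr rfl fun c _ => by ring
  unfold gw
  rw [h1, h]
  exact Finset.sum_congr rfl fun R _ => mul_comm _ _

/-- the partition function with the larger weights -/
theorem gZ_split (z z' : Finset (Sym2 (ℤ × ℤ)) → ℝ) (E : Finset (Sym2 (ℤ × ℤ))) :
    ∑ L ∈ CF E, gw z' L =
      ∑ B ∈ CF E, gw (fun c => z' c - z c) B * ∑ R ∈ CF (rest E B), gw z R := by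
  classical
  simp_rw [gw_add z z', Finset.mul_sum]
  exact colour E fun B R => gw (fun c => z' c - z c) B * gw z R

open Classical in
theorem gNu_split (z z' : Finset (Sym2 (ℤ × ℤ)) → ℝ) (E : Finset (Sym2 (ℤ × ℤ)))
    (A : Set (Finset (Sym2 (ℤ × ℤ)))) :
    ∑ B ∈ CF E, gw (fun c => z' c - z c) B * gNu z (rest E B) A =
      ∑ L ∈ CF E, ∑ R ∈ L.powerset, gw (fun c => z' c - z c) (L \ R) *
        (if ∃ c ∈ R, c ∈ A then gw z R else 0) := by
  unfold gNu
  simp_rw [Finset.mul_sum]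
  exact (colour E fun B R => gw (fun c => z' c - z c) B *
    if ∃ c ∈ R, c ∈ A then gw z R else 0).symm

theorem lower {z z' : Finset (Sym2 (ℤ × ℤ)) → ℝ} (hz : ∀ c, 0 ≤ z c) (hzz : ∀ c, z c ≤ z' c)
    (E : Finset (Sym2 (ℤ × ℤ))) (A : Set (Finset (Sym2 (ℤ × ℤ)))) {ρ : ℝ} (hρ : 0 ≤ ρ)
    (hA : ∀ c ∈ A, z' c ≤ ρ * z c) :
    gNu z' E A ≤ ρ * ∑ B ∈ CF E, gw (fun c => z' c - z c) B * gNu z (rest E B) A := by
  classical
  have hd : ∀ c, 0 ≤ z' c - z c := fun c => sub_nonneg.2 (hzz c)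
  rw [gNu_split]
  unfold gNu
  rw [Finset.mul_sum]
  refine Finset.sum_le_sum fun L _ => ?_
  have h0 : ∀ R : Finset (Finset (Sym2 (ℤ × ℤ))), 0 ≤ gw (fun c => z' c - z c) (L \ R) *
      (if ∃ c ∈ R, c ∈ A then gw z R else 0) := by
    intro R
    refine mul_nonneg (gw_nonneg hd _) ?_
    split_ifs
    · exact gw_nonneg hz _
    · exact le_rfl
  by_cases hL : ∃ c ∈ L, c ∈ A
  · rw [if_pos hL]
    obtain ⟨c, hc, hcA⟩ := hL
    obtain ⟨L', hL', rfl⟩ : ∃ L', c ∉ L' ∧ L = insert c L' :=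
      ⟨L.erase c, Finset.notMem_erase c L, (Finset.insert_erase hc).symm⟩
    rw [Finset.sum_powerset_insert hL']
    have h1 : z c * gw z' L' = ∑ R ∈ L'.powerset,
        gw (fun c => z' c - z c) (insert c L' \ insert c R) *
          (if ∃ d ∈ insert c R, d ∈ A then gw z (insert c R) else 0) := by
      rw [gw_add z z' L', Finset.mul_sum]
      refine Finset.sum_congr rfl fun R hR => ?_
      have hcR : c ∉ R := fun h => hL' (Finset.mem_powerset.1 hR h)
      rw [if_pos ⟨c, Finset.mem_insert_self _ _, hcA⟩]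
      have h3 : insert c L' \ insert c R = L' \ R := by
        ext d
        simp only [Finset.mem_sdiff, Finset.mem_insert, not_or]
        constructor
        · rintro ⟨h4 | h4, h5, h6⟩
          · exact absurd h4 h5
          · exact ⟨h4, h6⟩
        · rintro ⟨h4, h5⟩
          exact ⟨Or.inr h4, fun h6 => hL' (h6 ▸ h4), h5⟩
      have h4 : gw z (insert c R) = z c * gw z R := Finset.prod_insert hcR
      rw [h3, h4]
      ring
    have h2 : gw z' (insert c L') = z' c * gw z' L' := Finset.prod_insert hL'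
    rw [← h1, h2]
    have h5 : 0 ≤ gw z' L' := gw_nonneg (fun c => (hz c).trans (hzz c)) L'
    have h6 := mul_le_mul_of_nonneg_right (hA c hcA) h5
    have h7 : 0 ≤ ∑ R ∈ L'.powerset, gw (fun c => z' c - z c) (insert c L' \ R) *
        (if ∃ d ∈ R, d ∈ A then gw z R else 0) := Finset.sum_nonneg fun R _ => h0 R
    nlinarith [mul_nonneg hρ h7]
  · rw [if_neg hL]
    exact mul_nonneg hρ (Finset.sum_nonneg fun R _ => h0 R)

/-! ### Loops surrounding a vertex -/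

theorem adj_le {p q : ℤ × ℤ} (h : Adj p q) : |q.1 - p.1| ≤ 1 ∧ |q.2 - p.2| ≤ 1 := by
  unfold Adj at h
  rw [abs_le, abs_le]
  rcases h with h | h | ⟨h, -⟩ | ⟨h, -⟩ <;>
  · have h1 := congrArg Prod.fst h
    have h2 := congrArg Prod.snd h
    simp only [Prod.fst_sub, Prod.snd_sub] at h1 h2
    omega

theorem walk_le {f : ℤ → ℤ × ℤ} (hf : ∀ i, Adj (f i) (f (i + 1))) (i : ℤ) (r : ℕ) :
    |(f (i + r)).1 - (f i).1| ≤ r ∧ |(f (i + r)).2 - (f i).2| ≤ r := by
  induction r with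
  | zero => simp
  | succ r ih =>
    have h := adj_le (hf (i + r))
    have e : i + ((r + 1 : ℕ) : ℤ) = i + r + 1 := by push_cast; ring
    rw [e]
    simp only [abs_le] at *
    push_cast
    omega

theorem dist_le {k : ℕ} {f : ℤ → ℤ × ℤ} (h3 : 3 ≤ k) (hp : ∀ i j, f i = f j ↔ (k : ℤ) ∣ i - j)
    (hf : ∀ i, Adj (f i) (f (i + 1))) (i j : ℤ) :
    |(f j).1 - (f i).1| ≤ k ∧ |(f j).2 - (f i).2| ≤ k := by
  have hk : (0 : ℤ) < k := by omega
  have h1 : f j = f (i + ((j - i) % k).toNat) := by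
    rw [hp, Int.toNat_of_nonneg (Int.emod_nonneg _ hk.ne')]
    have : j - (i + (j - i) % k) = (j - i) - (j - i) % k := by ring
    rw [this]
    exact Int.dvd_self_sub_emod
  have h2 := walk_le hf i ((j - i) % k).toNat
  have h4 : (((j - i) % k).toNat : ℤ) < k := by
    rw [Int.toNat_of_nonneg (Int.emod_nonneg _ hk.ne')]
    exact Int.emod_lt_of_pos _ hk
  rw [h1]
  exact ⟨h2.1.trans h4.le, h2.2.trans h4.le⟩

theorem card_loop {c : Finset (Sym2 (ℤ × ℤ))} {k : ℕ} {f : ℤ → ℤ × ℤ} (h3 : 3 ≤ k)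
    (hp : ∀ i j, f i = f j ↔ (k : ℤ) ∣ i - j) (hf : ∀ i, Adj (f i) (f (i + 1)))
    (he : ∀ e, e ∈ c ↔ ∃ i, e = s(f i, f (i + 1))) : c.card = k := by
  have h : TH508.ON.Cyc k f := ⟨h3, hp, hf⟩
  have h1 : c = TH508.ON.E k f := by
    ext e
    rw [he, h.mem_E]
  rw [h1, h.card_E]

theorem surr_finite (v : ℤ × ℤ) (k0 : ℕ) :
    {c | IsLoop c ∧ Surrounds c v ∧ c.card < k0}.Finite := by
  classical
  let box : Finset (ℤ × ℤ) := Finset.Icc (v.1 - k0) (v.1 + k0) ×ˢ Finset.Icc (v.2 - k0) (v.2 + k0)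
  refine (box.sym2.powerset.finite_toSet).subset ?_
  rintro c ⟨⟨k, f, h3, hp, hf, he⟩, ⟨-, ho1, ho2⟩, hc⟩
  rw [card_loop h3 hp hf he] at hc
  obtain ⟨j, hj, hjc⟩ : {j : ℤ | v.2 < j ∧ s((v.1, j), (v.1 + 1, j)) ∈ c}.Nonempty := by
    by_contra h
    rw [Set.not_nonempty_iff_eq_empty] at h
    rw [h, Set.ncard_empty] at ho1
    exact absurd ho1 (by decide)
  obtain ⟨j', hj', hjc'⟩ : {j : ℤ | j < v.2 ∧ s((v.1, j), (v.1 + 1, j)) ∈ c}.Nonempty := by
    by_contra h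
    rw [Set.not_nonempty_iff_eq_empty] at h
    rw [h, Set.ncard_empty] at ho2
    exact absurd ho2 (by decide)
  have hv : ∀ (e : Sym2 (ℤ × ℤ)) (u : ℤ × ℤ), e ∈ c → u ∈ e → ∃ i, u = f i := by
    intro e u hec hu
    obtain ⟨i, rfl⟩ := (he e).1 hec
    rcases Sym2.mem_iff.1 hu with h | h
    · exact ⟨i, h⟩
    · exact ⟨i + 1, h⟩
  obtain ⟨a, ha⟩ := hv _ (v.1, j) hjc (Sym2.mem_mk_left _ _)
  obtain ⟨b, hb⟩ := hv _ (v.1, j') hjc' (Sym2.mem_mk_left _ _)
  rw [Finset.mem_coe, Finset.mem_powerset]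
  intro e hec
  rw [Finset.mem_sym2_iff]
  intro u hu
  obtain ⟨i, rfl⟩ := hv e u hec hu
  have h1 := dist_le h3 hp hf a i
  have h2 := dist_le h3 hp hf b i
  rw [← ha] at h1
  rw [← hb] at h2
  simp only [abs_le] at h1 h2
  show f i ∈ Finset.Icc (v.1 - (k0 : ℤ)) (v.1 + k0) ×ˢ Finset.Icc (v.2 - (k0 : ℤ)) (v.2 + k0)
  rw [Finset.mem_product, Finset.mem_Icc, Finset.mem_Icc]
  have hk : (k : ℤ) < k0 := by exact_mod_cast hc
  omega

/-! ### Uniform probability that no loop surrounds a vertex -/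

/-- weight of the configurations without a loop in `A` -/
noncomputable def Nc (n x : ℝ) (E : Finset (Sym2 (ℤ × ℤ))) (A : Set (Finset (Sym2 (ℤ × ℤ)))) : ℝ :=
  open Classical in ∑ L ∈ (CF E).filter (fun L => ∀ c ∈ L, c ∉ A), weight n x L

theorem Nc_eq (n x : ℝ) (E : Finset (Sym2 (ℤ × ℤ))) (A : Set (Finset (Sym2 (ℤ × ℤ)))) :
    Nc n x E A = Z n x E - Nu n x E A := by
  classical
  unfold Nc Nu
  rw [Z_eq, ← Finset.sum_sub_distrib, Finset.sum_filter]
  refine Finset.sum_congr rfl fun L _ => ?_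
  by_cases h : ∃ c ∈ L, c ∈ A
  · rw [if_pos h, if_neg (by push Not; exact h), sub_self]
  · rw [if_neg h, if_pos (by push Not at h; exact h), sub_zero]

theorem energy {n x : ℝ} (hn : 0 < n) (hx : 0 < x) (v : ℤ × ℤ) (k0 : ℕ) :
    ∃ K : ℝ, 1 ≤ K ∧ ∀ E : Finset (Sym2 (ℤ × ℤ)),
      Nc n x E (Long v k0) ≤ K * Nc n x E (Long v 1) := by
  classical
  obtain ⟨S0, hS0⟩ : ∃ S0 : Finset (Finset (Sym2 (ℤ × ℤ))),
      ∀ c, c ∈ S0 ↔ IsLoop c ∧ Surrounds c v ∧ c.card < k0 :=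
    ⟨(surr_finite v k0).toFinset, fun c => by rw [Set.Finite.mem_toFinset]; rfl⟩
  refine ⟨∑ T ∈ S0.powerset, weight n x T, ?_, fun E => ?_⟩
  · rw [← weight_empty n x]
    exact Finset.single_le_sum (fun T _ => weight_nonneg hn.le hx T)
      (Finset.mem_powerset.2 (Finset.empty_subset _))
  · unfold Nc
    rw [mul_comm, Finset.sum_mul_sum, ← Finset.sum_product']
    have h1 : ∀ L : Finset (Finset (Sym2 (ℤ × ℤ))),
        weight n x L = weight n x (L \ S0) * weight n x (L ∩ S0) := by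
      intro L
      rw [weight_eq, weight_eq, weight_eq, mul_comm, ← Finset.prod_inter_mul_prod_sdiff L S0]
    have h2 : Set.InjOn (fun L : Finset (Finset (Sym2 (ℤ × ℤ))) => (L \ S0, L ∩ S0))
        ↑((CF E).filter (fun L => ∀ c ∈ L, c ∉ Long v k0)) := by
      intro L _ L' _ h
      simp only [Prod.mk.injEq] at h
      rw [← Finset.sdiff_union_inter L S0, ← Finset.sdiff_union_inter L' S0, h.1, h.2]
    calc ∑ L ∈ (CF E).filter (fun L => ∀ c ∈ L, c ∉ Long v k0), weight n x L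
        = ∑ L ∈ (CF E).filter (fun L => ∀ c ∈ L, c ∉ Long v k0),
            (fun p : Finset (Finset (Sym2 (ℤ × ℤ))) × Finset (Finset (Sym2 (ℤ × ℤ))) =>
              weight n x p.1 * weight n x p.2) (L \ S0, L ∩ S0) :=
          Finset.sum_congr rfl fun L _ => h1 L
      _ = ∑ p ∈ ((CF E).filter (fun L => ∀ c ∈ L, c ∉ Long v k0)).image
            (fun L => (L \ S0, L ∩ S0)), weight n x p.1 * weight n x p.2 :=
          (Finset.sum_image (f := fun p : Finset (Finset (Sym2 (ℤ × ℤ))) ×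
            Finset (Finset (Sym2 (ℤ × ℤ))) => weight n x p.1 * weight n x p.2) h2).symm
      _ ≤ ∑ p ∈ ((CF E).filter (fun L => ∀ c ∈ L, c ∉ Long v 1)) ×ˢ S0.powerset,
            weight n x p.1 * weight n x p.2 := by
          refine Finset.sum_le_sum_of_subset_of_nonneg ?_ fun p _ _ =>
            mul_nonneg (weight_nonneg hn.le hx _) (weight_nonneg hn.le hx _)
          intro p hp
          obtain ⟨L, hL, rfl⟩ := Finset.mem_image.1 hp
          rw [Finset.mem_filter, mem_CF] at hL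
          rw [Finset.mem_product, Finset.mem_filter, mem_CF, Finset.mem_powerset]
          refine ⟨⟨conf_sdiff hL.1, fun c hc hcA => ?_⟩, Finset.inter_subset_right⟩
          rw [Finset.mem_sdiff] at hc
          refine hL.2 c hc.1 ⟨hcA.1, ?_⟩
          by_contra hlt
          exact hc.2 ((hS0 c).2 ⟨(hL.1.1 c hc.1).1, hcA.1, not_le.1 hlt⟩)

theorem Pr_le_mul {n m x y : ℝ} (hx : 0 < x) (hxy : x ≤ y) (hn : 0 < n) (hm : n ≤ m)
    (E : Finset (Sym2 (ℤ × ℤ))) (A : Set (Finset (Sym2 (ℤ × ℤ)))) {ρ ε : ℝ} (hρ : 0 ≤ ρ)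
    (hA : ∀ c ∈ A, m * y ^ c.card ≤ ρ * (n * x ^ c.card))
    (h : ∀ B ∈ Conf E, Pr n x (rest E B) A ≤ ε) : Pr m y E A ≤ ρ * ε := by
  have hm0 : 0 < m := hn.trans_le hm
  have hy : 0 < y := hx.trans_le hxy
  have hz : ∀ c : Finset (Sym2 (ℤ × ℤ)), 0 ≤ n * x ^ c.card := fun c => by positivity
  have hzz : ∀ c : Finset (Sym2 (ℤ × ℤ)), n * x ^ c.card ≤ m * y ^ c.card := fun c =>
    mul_le_mul hm (pow_le_pow_left₀ hx.le hxy _) (by positivity) hm0.le
  have h1 := lower hz hzz E A hρ hA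
  have h2 : ∑ B ∈ CF E, gw (fun c => m * y ^ c.card - n * x ^ c.card) B *
      gNu (fun c => n * x ^ c.card) (rest E B) A ≤ ε * Z m y E := by
    rw [Z_eq, weight_gw, gZ_split (fun c => n * x ^ c.card) (fun c => m * y ^ c.card) E,
      Finset.mul_sum]
    refine Finset.sum_le_sum fun B hB => ?_
    have h3 := h B (mem_CF.1 hB)
    rw [Pr_eq, div_le_iff₀ (Z_pos hn.le hx _), Z_eq, weight_gw, Nu_gw] at h3
    have h4 := mul_le_mul_of_nonneg_left h3
      (gw_nonneg (fun c => sub_nonneg.2 (hzz c)) B)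
    calc _ ≤ _ := h4
      _ = _ := by ring
  rw [Pr_eq, div_le_iff₀ (Z_pos hm0.le hy _), mul_assoc, Nu_gw]
  exact h1.trans (mul_le_mul_of_nonneg_left h2 hρ)

theorem Nu_mono {n x : ℝ} (hn : 0 ≤ n) (hx : 0 < x) (E : Finset (Sym2 (ℤ × ℤ)))
    {A A' : Set (Finset (Sym2 (ℤ × ℤ)))} (h : A ⊆ A') : Nu n x E A ≤ Nu n x E A' := by
  unfold Nu
  refine Finset.sum_le_sum fun L _ => ?_
  by_cases h3 : ∃ d ∈ L, d ∈ A
  · obtain ⟨d, hd, hd1⟩ := h3
    rw [if_pos ⟨d, hd, hd1⟩, if_pos ⟨d, hd, h hd1⟩]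
  · rw [if_neg h3]
    split_ifs
    · exact weight_nonneg hn hx L
    · exact le_rfl

theorem Pr_mono {n x : ℝ} (hn : 0 ≤ n) (hx : 0 < x) (E : Finset (Sym2 (ℤ × ℤ)))
    {A A' : Set (Finset (Sym2 (ℤ × ℤ)))} (h : A ⊆ A') : Pr n x E A ≤ Pr n x E A' := by
  rw [Pr_eq, Pr_eq]
  exact div_le_div_of_nonneg_right (Nu_mono hn hx E h) (Z_pos hn hx E).le

theorem Pr_union {n x : ℝ} (hn : 0 ≤ n) (hx : 0 < x) (E : Finset (Sym2 (ℤ × ℤ)))
    (A A' : Set (Finset (Sym2 (ℤ × ℤ)))) : Pr n x E (A ∪ A') ≤ Pr n x E A + Pr n x E A' := by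
  rw [Pr_eq, Pr_eq, Pr_eq, ← add_div]
  refine div_le_div_of_nonneg_right ?_ (Z_pos hn hx E).le
  unfold Nu
  rw [← Finset.sum_add_distrib]
  refine Finset.sum_le_sum fun L _ => ?_
  have hw := weight_nonneg hn hx L
  by_cases h3 : ∃ d ∈ L, d ∈ A
  · rw [if_pos h3]
    split_ifs <;> linarith
  · rw [if_neg h3]
    by_cases h4 : ∃ d ∈ L, d ∈ A'
    · rw [if_pos h4]
      split_ifs <;> linarith
    · rw [if_neg h4, if_neg]
      · simp
      · rintro ⟨d, hd, hd' | hd'⟩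
        · exact h3 ⟨d, hd, hd'⟩
        · exact h4 ⟨d, hd, hd'⟩

/-- the loops of length exactly `k` which surround `v` -/
def Exact (v : ℤ × ℤ) (k : ℕ) : Set (Finset (Sym2 (ℤ × ℤ))) := {c | Surrounds c v ∧ c.card = k}

theorem Pr_long {n x : ℝ} (hn : 0 ≤ n) (hx : 0 < x) (v : ℤ × ℤ) (E : Finset (Sym2 (ℤ × ℤ)))
    (k : ℕ) : ∀ r : ℕ, Pr n x E (Long v k) ≤
      ∑ j ∈ Finset.range r, Pr n x E (Exact v (k + j)) + Pr n x E (Long v (k + r)) := by
  intro r
  induction r with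
  | zero => simp
  | succ r ih =>
    rw [Finset.sum_range_succ]
    have h1 : Long v (k + r) = Exact v (k + r) ∪ Long v (k + (r + 1)) := by
      ext c
      simp only [Long, Exact, Set.mem_union, Set.mem_ofPred_eq]
      constructor
      · rintro ⟨h1, h2⟩
        rcases h2.eq_or_lt with h3 | h3
        · exact Or.inl ⟨h1, h3.symm⟩
        · exact Or.inr ⟨h1, h3⟩
      · rintro (⟨h1, h2⟩ | ⟨h1, h2⟩)
        · exact ⟨h1, h2.ge⟩
        · exact ⟨h1, by omega⟩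
    have h2 := Pr_union hn hx E (Exact v (k + r)) (Long v (k + (r + 1)))
    rw [← h1] at h2
    linarith

theorem Pr_long_zero {n x : ℝ} (v : ℤ × ℤ) (E : Finset (Sym2 (ℤ × ℤ))) {k : ℕ}
    (hk : E.card < k) : Pr n x E (Long v k) = 0 := by
  rw [Pr_eq]
  have : Nu n x E (Long v k) = 0 := by
    unfold Nu
    refine Finset.sum_eq_zero fun L hL => if_neg ?_
    rintro ⟨c, hc, hcA⟩
    have h1 := Finset.card_le_card ((mem_CF.1 hL).1 c hc).2
    exact absurd hcA.2 (by omega)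
  rw [this, zero_div]

/-- a prefactor can be absorbed in the rate -/
theorem absorb {m y : ℝ} (hm0 : 0 < m) (hy : 0 < y) (v : ℤ × ℤ)
    (D : Set (Finset (Sym2 (ℤ × ℤ)))) {c C : ℝ} (hc : 0 < c) (hC : 0 < C)
    (h1 : ∀ E ∈ D, ∀ B ∈ Conf E, ∀ k : ℕ, 1 ≤ k →
      Pr m y (rest E B) (Long v k) ≤ C * Real.exp (-c * k)) : Decay m y v D := by
  -- a scale from which the prefactor is harmless
  obtain ⟨k0, hk1, hk0⟩ : ∃ k0 : ℕ, 1 ≤ k0 ∧ C * Real.exp (-(c / 2) * k0) ≤ 1 / 2 := by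
    have h2 : Filter.Tendsto (fun k : ℕ => C * Real.exp (-(c / 2) * k)) Filter.atTop
        (nhds (C * 0)) := by
      refine Filter.Tendsto.const_mul _ (Real.tendsto_exp_atBot.comp ?_)
      exact Filter.Tendsto.const_mul_atTop_of_neg (by linarith) tendsto_natCast_atTop_atTop
    rw [mul_zero] at h2
    obtain ⟨k0, hk0⟩ := (((h2.eventually (ge_mem_nhds (show (0 : ℝ) < 1 / 2 by norm_num))).and
      (Filter.eventually_ge_atTop 1)).exists)
    exact ⟨k0, hk0.2, hk0.1⟩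
  have hk0' : (1 : ℝ) ≤ k0 := by exact_mod_cast hk1
  have hlarge : ∀ k : ℕ, k0 ≤ k → C * Real.exp (-c * k) ≤ Real.exp (-(c / 2) * k) := by
    intro k hk
    have hk' : (k0 : ℝ) ≤ k := by exact_mod_cast hk
    have e : Real.exp (-c * k) = Real.exp (-(c / 2) * k) * Real.exp (-(c / 2) * k) := by
      rw [← Real.exp_add]
      congr 1
      ring
    have h3 : C * Real.exp (-(c / 2) * k) ≤ 1 := by
      refine le_trans (mul_le_mul_of_nonneg_left (Real.exp_le_exp.2 ?_) hC.le)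
        (hk0.trans (by norm_num))
      nlinarith
    rw [e, ← mul_assoc]
    calc C * Real.exp (-(c / 2) * k) * Real.exp (-(c / 2) * k)
        ≤ 1 * Real.exp (-(c / 2) * k) :=
          mul_le_mul_of_nonneg_right h3 (Real.exp_pos _).le
      _ = Real.exp (-(c / 2) * k) := one_mul _
  obtain ⟨K, hK1, hK⟩ := energy hm0 hy v k0
  have hK0 : 0 < K := by linarith
  have hsmall : ∀ E ∈ D, ∀ B ∈ Conf E, Pr m y (rest E B) (Long v 1) ≤
      Real.exp (-(1 / (2 * K))) := by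
    intro E hE B hB
    have hZ := Z_pos hm0.le hy (rest E B)
    have h3 : Pr m y (rest E B) (Long v k0) ≤ 1 / 2 := by
      refine (h1 E hE B hB k0 hk1).trans ((mul_le_mul_of_nonneg_left
        (Real.exp_le_exp.2 ?_) hC.le).trans hk0)
      nlinarith
    have h4 := hK (rest E B)
    rw [Nc_eq, Nc_eq] at h4
    rw [Pr_eq, div_le_iff₀ hZ] at h3
    have h5 : Z m y (rest E B) / (2 * K) ≤ Z m y (rest E B) - Nu m y (rest E B) (Long v 1) := by
      rw [div_le_iff₀ (by positivity)]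
      nlinarith
    have h6 : Pr m y (rest E B) (Long v 1) ≤ 1 - 1 / (2 * K) := by
      rw [Pr_eq, div_le_iff₀ hZ]
      have : (1 - 1 / (2 * K)) * Z m y (rest E B) =
          Z m y (rest E B) - Z m y (rest E B) / (2 * K) := by ring
      rw [this]
      linarith
    have h7 := Real.add_one_le_exp (-(1 / (2 * K)))
    linarith
  refine ⟨min (c / 2) (1 / (2 * K * k0)), by positivity, fun E hE B hB k hk => ?_⟩
  have hk' : (1 : ℝ) ≤ k := by exact_mod_cast hk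
  rcases le_or_gt k0 k with hkk | hkk
  · refine ((h1 E hE B hB k hk).trans (hlarge k hkk)).trans (Real.exp_le_exp.2 ?_)
    have h3 := min_le_left (c / 2) (1 / (2 * K * k0))
    nlinarith
  · refine ((Pr_mono hm0.le hy _ (A := Long v k) (A' := Long v 1)
      (fun d hd => ⟨hd.1, hk.trans hd.2⟩)).trans
      (hsmall E hE B hB)).trans (Real.exp_le_exp.2 ?_)
    have h3 := min_le_right (c / 2) (1 / (2 * K * k0))
    have h4 : (k : ℝ) ≤ k0 := by exact_mod_cast hkk.le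
    have h5 : min (c / 2) (1 / (2 * K * k0)) * k ≤ 1 / (2 * K * k0) * k0 :=
      mul_le_mul h3 h4 (by positivity) (by positivity)
    have h6 : 1 / (2 * K * k0) * (k0 : ℝ) = 1 / (2 * K) := by
      field_simp
    rw [h6] at h5
    linarith

theorem decay_mono {n m x y : ℝ} (hx : 0 < x) (hxy : x ≤ y) (hn : 0 < n) (hm : n ≤ m)
    (v : ℤ × ℤ) (D : Set (Finset (Sym2 (ℤ × ℤ)))) {c : ℝ} (hy : y < x * Real.exp c)
    (h : ∀ E ∈ D, ∀ B ∈ Conf E, ∀ k : ℕ, 1 ≤ k →
      Pr n x (rest E B) (Long v k) ≤ Real.exp (-c * k)) : Decay m y v D := by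
  classical
  have hm0 : 0 < m := hn.trans_le hm
  have hy0 : 0 < y := hx.trans_le hxy
  obtain ⟨q, hq⟩ : ∃ q, q = y / x * Real.exp (-c) := ⟨_, rfl⟩
  have hq0 : 0 < q := by rw [hq]; positivity
  have hq1 : q < 1 := by
    rw [hq, Real.exp_neg, div_mul_eq_mul_div, div_lt_one hx, ← div_eq_mul_inv,
      div_lt_iff₀ (Real.exp_pos c)]
    exact hy
  have hexact : ∀ E ∈ D, ∀ B ∈ Conf E, ∀ k : ℕ, 1 ≤ k →
      Pr m y (rest E B) (Exact v k) ≤ m / n * q ^ k := by
    intro E hE B hB k hk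
    have h2 := Pr_le_mul hx hxy hn hm (rest E B) (Exact v k) (ρ := m / n * (y / x) ^ k)
      (ε := Real.exp (-c * k)) (by positivity) (fun d hd => by
        rw [hd.2, div_pow]
        field_simp
        exact le_rfl) (fun B' hB' => by
        rw [rest_rest]
        exact (Pr_mono hn.le hx _ (A := Exact v k) (A' := Long v k)
          (fun d hd => ⟨hd.1, hd.2.ge⟩)).trans
          (h E hE _ (conf_union hB hB') k hk))
    have e : Real.exp (-c * k) = Real.exp (-c) ^ k := by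
      rw [← Real.exp_nat_mul]
      congr 1
      ring
    rw [e, mul_assoc, ← mul_pow, ← hq] at h2
    exact h2
  have hlong : ∀ E ∈ D, ∀ B ∈ Conf E, ∀ k : ℕ, 1 ≤ k →
      Pr m y (rest E B) (Long v k) ≤ m / n / (1 - q) * Real.exp (-(-Real.log q) * k) := by
    intro E hE B hB k hk
    have h2 := Pr_long hm0.le hy0 v (rest E B) k ((rest E B).card + 1)
    rw [Pr_long_zero v (rest E B) (show (rest E B).card < k + ((rest E B).card + 1) by omega),
      add_zero] at h2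
    refine h2.trans ?_
    have h3 : ∀ j ∈ Finset.range ((rest E B).card + 1), Pr m y (rest E B) (Exact v (k + j)) ≤
        m / n * q ^ k * q ^ j := by
      intro j _
      have := hexact E hE B hB (k + j) (by omega)
      rwa [pow_add, ← mul_assoc] at this
    refine (Finset.sum_le_sum h3).trans ?_
    rw [← Finset.mul_sum]
    have h4 : ∑ j ∈ Finset.range ((rest E B).card + 1), q ^ j ≤ (1 - q)⁻¹ := by
      rw [← tsum_geometric_of_lt_one hq0.le hq1]
      exact (summable_geometric_of_lt_one hq0.le hq1).sum_le_tsum _ fun j _ => by positivity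
    have h5 : Real.exp (-(-Real.log q) * k) = q ^ k := by
      rw [neg_neg, mul_comm, Real.exp_nat_mul, Real.exp_log hq0]
    rw [h5]
    calc m / n * q ^ k * ∑ j ∈ Finset.range ((rest E B).card + 1), q ^ j
        ≤ m / n * q ^ k * (1 - q)⁻¹ := mul_le_mul_of_nonneg_left h4 (by positivity)
      _ = m / n / (1 - q) * q ^ k := by
        rw [div_eq_mul_inv (m / n) (1 - q)]
        ring
  exact absorb hm0 hy0 v D (neg_pos.2 (Real.log_neg hq0 hq1))
    (div_pos (div_pos hm0 hn) (by linarith)) hlong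

/-! ### Conditional laws -/

open Classical in
theorem sum_ext {n x : ℝ} (E : Finset (Sym2 (ℤ × ℤ))) {B : Finset (Finset (Sym2 (ℤ × ℤ)))}
    (hB : B ∈ Conf E) (Q : Finset (Finset (Sym2 (ℤ × ℤ))) → Prop) :
    ∑ᶠ L ∈ {L | L ∈ Conf E ∧ B ⊆ L ∧ Q (L \ B)}, weight n x L =
      weight n x B * ∑ R ∈ CF (rest E B), if Q R then weight n x R else 0 := by
  have hfin : {L | L ∈ Conf E ∧ B ⊆ L ∧ Q (L \ B)}.Finite :=
    (finite_conf E).subset fun L hL => hL.1
  rw [finsum_mem_eq_finite_toFinset_sum _ hfin, ← Finset.sum_filter, Finset.mul_sum]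
  refine Finset.sum_nbij' (fun L => L \ B) (fun R => B ∪ R) ?_ ?_ ?_ ?_ ?_
  · intro L hL
    rw [Set.Finite.mem_toFinset] at hL
    obtain ⟨h1, h2, h3⟩ := hL
    rw [Finset.mem_filter, mem_CF]
    refine ⟨?_, h3⟩
    have h4 := conf_rest h1 (Finset.sdiff_subset (s := L) (t := B))
    rwa [Finset.sdiff_sdiff_eq_self h2] at h4
  · intro R hR
    rw [Finset.mem_filter, mem_CF] at hR
    rw [Set.Finite.mem_toFinset]
    refine ⟨conf_union hB hR.1, Finset.subset_union_left, ?_⟩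
    rw [Finset.union_sdiff_left, Finset.sdiff_eq_self_of_disjoint (disj hR.1).symm]
    exact hR.2
  · intro L hL
    rw [Set.Finite.mem_toFinset] at hL
    exact Finset.union_sdiff_of_subset hL.2.1
  · intro R hR
    rw [Finset.mem_filter, mem_CF] at hR
    show (B ∪ R) \ B = R
    rw [Finset.union_sdiff_left, Finset.sdiff_eq_self_of_disjoint (disj hR.1).symm]
  · intro L hL
    rw [Set.Finite.mem_toFinset] at hL
    rw [weight_eq, weight_eq, weight_eq, mul_comm, Finset.prod_sdiff hL.2.1]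

theorem conditional {n x : ℝ} (hn : 0 < n) (hx : 0 < x) (E : Finset (Sym2 (ℤ × ℤ)))
    {B : Finset (Finset (Sym2 (ℤ × ℤ)))} (hB : B ∈ Conf E) (A : Set (Finset (Sym2 (ℤ × ℤ)))) :
    ∑ᶠ L ∈ {L | L ∈ Conf E ∧ B ⊆ L ∧ ∃ c ∈ L, c ∉ B ∧ c ∈ A}, weight n x L =
      Pr n x (rest E B) A * ∑ᶠ L ∈ {L | L ∈ Conf E ∧ B ⊆ L}, weight n x L := by
  classical
  have h1 := sum_ext (n := n) (x := x) E hB (fun R => ∃ c ∈ R, c ∈ A)
  have h2 := sum_ext (n := n) (x := x) E hB (fun _ => True)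
  have e1 : {L | L ∈ Conf E ∧ B ⊆ L ∧ ∃ c ∈ L, c ∉ B ∧ c ∈ A} =
      {L | L ∈ Conf E ∧ B ⊆ L ∧ ∃ c ∈ L \ B, c ∈ A} := by
    ext L
    simp only [Set.mem_ofPred_eq, Finset.mem_sdiff, and_assoc]
  have e2 : {L | L ∈ Conf E ∧ B ⊆ L} = {L | L ∈ Conf E ∧ B ⊆ L ∧ True} := by
    simp only [and_true]
  rw [e1, e2, h1, h2, Pr_eq]
  simp only [if_true]
  rw [← Z_eq]
  unfold Nu
  have hZ := (Z_pos hn.le hx (rest E B)).ne'
  field_simp
  congr 1
  refine Finset.sum_congr rfl fun R _ => ?_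
  congr

/-- Let `0 < n ≤ m` and `0 < x ≤ y`.

(1) For every finite set `E` of edges, every family `B` of disjoint loops of `E` and every class
`A` of loops, `Pr n x (rest E B) A` is the conditional probability, in the loop O(n) model on `E`
with edge weight `x` given that the loops of `B` are present, that one of the other loops is in `A`.

(2) For every finite set `E` of edges and every class `A` of loops there is a family `B` of disjoint
loops of `E` with `Pr m x E A ≤ (m/n) Pr n x (rest E B) A`; if the loops of `A` have length at most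
`j`, there is one with `Pr m y E A ≤ (m/n) (y/x)^j Pr n x (rest E B) A`.

(3) If conditional exponential decay holds at `(n, x)` with rate `c` for the class `D` and
`y < x exp c`, then it holds at `(m, y)`. In particular `Decay n x v D` implies `Decay m x v D`.

(4) Exponential decay uniformly over all finite subgraphs at `(n, x)` implies exponential decay
uniformly over all finite subgraphs at `(m, x)`. -/
theorem result (n m x y : ℝ) (hx : 0 < x) (hxy : x ≤ y) (hn : 0 < n) (hm : n ≤ m) :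
    (∀ (E : Finset (Sym2 (ℤ × ℤ))), ∀ B ∈ Conf E, ∀ A : Set (Finset (Sym2 (ℤ × ℤ))),
      ∑ᶠ L ∈ {L | L ∈ Conf E ∧ B ⊆ L ∧ ∃ c ∈ L, c ∉ B ∧ c ∈ A}, weight n x L =
        Pr n x (rest E B) A * ∑ᶠ L ∈ {L | L ∈ Conf E ∧ B ⊆ L}, weight n x L) ∧
    (∀ (E : Finset (Sym2 (ℤ × ℤ))) (A : Set (Finset (Sym2 (ℤ × ℤ)))),
      (∃ B ∈ Conf E, Pr m x E A ≤ m / n * Pr n x (rest E B) A) ∧
      ∀ j : ℕ, (∀ c ∈ A, c.card ≤ j) →
        ∃ B ∈ Conf E, Pr m y E A ≤ m / n * (y / x) ^ j * Pr n x (rest E B) A) ∧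
    (∀ (v : ℤ × ℤ) (D : Set (Finset (Sym2 (ℤ × ℤ)))) (c : ℝ), y < x * Real.exp c →
      (∀ E ∈ D, ∀ B ∈ Conf E, ∀ k : ℕ, 1 ≤ k →
        Pr n x (rest E B) (Long v k) ≤ Real.exp (-c * k)) → Decay m y v D) ∧
    (∀ (v : ℤ × ℤ) (D : Set (Finset (Sym2 (ℤ × ℤ)))), Decay n x v D → Decay m x v D) ∧
    ∀ v : ℤ × ℤ,
      (∃ c : ℝ, 0 < c ∧ ∀ (E : Finset (Sym2 (ℤ × ℤ))) (k : ℕ), 1 ≤ k →
        Pr n x E (Long v k) ≤ Real.exp (-c * k)) →
      ∃ c : ℝ, 0 < c ∧ ∀ (E : Finset (Sym2 (ℤ × ℤ))) (k : ℕ), 1 ≤ k →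
        Pr m x E (Long v k) ≤ Real.exp (-c * k) := by
  have hm0 : 0 < m := hn.trans_le hm
  have hy0 : 0 < y := hx.trans_le hxy
  have hdec : ∀ (v : ℤ × ℤ) (D : Set (Finset (Sym2 (ℤ × ℤ)))), Decay n x v D →
      Decay m x v D := by
    rintro v D ⟨c, hc, h⟩
    refine decay_mono hx le_rfl hn hm v D (c := c) ?_ h
    have := Real.one_lt_exp_iff.2 hc
    nlinarith
  have hex : ∀ (E : Finset (Sym2 (ℤ × ℤ))) (A : Set (Finset (Sym2 (ℤ × ℤ)))),
      ∃ B ∈ Conf E, ∀ B' ∈ Conf E, Pr n x (rest E B') A ≤ Pr n x (rest E B) A := by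
    intro E A
    obtain ⟨B, hB, h⟩ := Finset.exists_max_image (CF E) (fun B => Pr n x (rest E B) A)
      ⟨∅, mem_CF.2 (empty_mem E)⟩
    exact ⟨B, mem_CF.1 hB, fun B' hB' => h B' (mem_CF.2 hB')⟩
  refine ⟨fun E B hB A => conditional hn hx E hB A, fun E A => ?_, fun v D c hy h =>
    decay_mono hx hxy hn hm v D hy h, hdec, fun v h => ?_⟩
  · obtain ⟨B, hB, h⟩ := hex E A
    refine ⟨⟨B, hB, Pr_le_mul hx le_rfl hn hm E A (by positivity) (fun c _ => ?_) h⟩,
      fun j hj => ⟨B, hB, Pr_le_mul hx hxy hn hm E A (by positivity) (fun c hc => ?_) h⟩⟩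
    · rw [← mul_assoc, div_mul_cancel₀ _ hn.ne']
    · have h1 : (y / x) ^ c.card ≤ (y / x) ^ j :=
        pow_le_pow_right₀ ((one_le_div hx).2 hxy) (hj c hc)
      have h2 : m * y ^ c.card = m / n * (y / x) ^ c.card * (n * x ^ c.card) := by
        rw [div_pow]
        field_simp
      rw [h2]
      exact mul_le_mul_of_nonneg_right (mul_le_mul_of_nonneg_left h1 (by positivity))
        (by positivity)
  · obtain ⟨c, hc, h⟩ := h
    obtain ⟨c', hc', h'⟩ := hdec v Set.univ ⟨c, hc, fun E _ B _ k hk => h (rest E B) k hk⟩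
    refine ⟨c', hc', fun E k hk => ?_⟩
    have h1 := h' E (Set.mem_univ _) ∅ (empty_mem E) k hk
    have h2 : rest E ∅ = E := by
      ext e
      rw [mem_rest]
      simp
    rwa [h2] at h1

end Pool.Agent.Results.MP_888d55_pr.ConditionalDecay
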